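import Mathlib
import Pool.Agent.Helper596_Q.Fin

/-!
# Structures interpretable in the pure set or in the rational order have finitely many reducts
-/

set_option autoImplicit false

namespace Pool.Agent.Results.MP_a81937_lc.PureSet

open FirstOrder FirstOrder.Language Pool.Agent.Helper596_Q

/-- The structure `M` has a first-order interpretation (without parameters, in some finite
dimension `d`) over the structure `A`: there is a map `π` from a definable set `D` of `d`-tuples of
elements of `A` onto `M` such that the kernel of `π`, the preimage of every relation of `M` and the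
preimage of the graph of every function of `M` are definable in `A`. -/
def Interpretable (L₀ : FirstOrder.Language.{0, 0}) (A : Type) [L₀.Structure A]
    (L : FirstOrder.Language.{0, 0}) (M : Type) [L.Structure M] : Prop :=
  ∃ (d : ℕ) (D : Set (Fin d → A)) (π : (Fin d → A) → M),
    Set.Definable (∅ : Set A) L₀ D ∧ (∀ m : M, ∃ x ∈ D, π x = m) ∧
    Set.Definable (∅ : Set A) L₀ {p : Fin 2 × Fin d → A | (∀ i, (fun j => p (i, j)) ∈ D) ∧
      π (fun j => p (0, j)) = π (fun j => p (1, j))} ∧
    (∀ (n : ℕ) (R : L.Relations n), Set.Definable (∅ : Set A) L₀ {p : Fin n × Fin d → A |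
      (∀ i, (fun j => p (i, j)) ∈ D) ∧ Structure.RelMap R (fun i => π (fun j => p (i, j)))}) ∧
    (∀ (n : ℕ) (f : L.Functions n), Set.Definable (∅ : Set A) L₀
      {p : Fin (n + 1) × Fin d → A | (∀ i, (fun j => p (i, j)) ∈ D) ∧
        Structure.funMap f (fun i : Fin n => π (fun j => p (i.castSucc, j))) =
          π (fun j => p (Fin.last n, j))})

/-- The structure `M` has only finitely many first-order reducts up to interdefinability: the
structures whose relations are given by a family `F` of relations definable in `M` without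
parameters have, all together, only finitely many different families `D` of definable sets. -/
def FinitelyManyReducts (L : FirstOrder.Language.{0, 0}) (M : Type) [L.Structure M] : Prop :=
  Set.Finite {D : (n : ℕ) → Set (Set (Fin n → M)) |
    ∃ F : (n : ℕ) → Set (Set (Fin n → M)),
      (∀ n, F n ⊆ {s : Set (Fin n → M) | Set.Definable (∅ : Set M) L s}) ∧
      ∃ S : (FirstOrder.Language.mk (fun _ => Empty) (fun k => ↥(F k))).Structure M,
        (∀ (k : ℕ) (r : ↥(F k)) (x : Fin k → M),
            @FirstOrder.Language.Structure.RelMap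
              (FirstOrder.Language.mk (fun _ => Empty) (fun k => ↥(F k))) M S k r x
              ↔ x ∈ r.1) ∧
        ∀ n, D n = {s : Set (Fin n → M) |
          @Set.Definable M (∅ : Set M)
            (FirstOrder.Language.mk (fun _ => Empty) (fun k => ↥(F k))) S (Fin n) s}}

/-- `M` has a first-order interpretation over the pure countably infinite set `(ℕ; =)`. -/
def InterpretableInPureSet (L : FirstOrder.Language.{0, 0}) (M : Type) [L.Structure M] : Prop :=
  @Interpretable Language.empty ℕ Language.emptyStructure L M _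

/-- `M` has a first-order interpretation over the linear order `(ℚ; <)`. -/
def InterpretableInRationals (L : FirstOrder.Language.{0, 0}) (M : Type) [L.Structure M] : Prop :=
  @Interpretable Language.order ℚ (orderStructure ℚ) L M _

/-- The set `s` of families of rational numbers is definable without parameters in `(ℚ, <)`. -/
def QDef {α : Type} (s : Set (α → ℚ)) : Prop :=
  @Set.Definable ℚ (∅ : Set ℚ) Language.order (orderStructure ℚ) α s

theorem QDef.inv {α : Type} {s : Set (α → ℚ)} (h : QDef s) (σ : ℚ ≃o ℚ) (x : α → ℚ) :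
    x ∈ s ↔ (fun i => σ (x i)) ∈ s := by
  let _ : Language.order.Structure ℚ := orderStructure ℚ
  have : Language.order.OrderedStructure ℚ := ⟨fun x => Iff.rfl⟩
  have h' : Set.Definable (∅ : Set ℚ) Language.order s := h
  rw [Set.empty_definable_iff] at h'
  obtain ⟨φ, rfl⟩ := h'
  exact (StrongHomClass.realize_formula σ φ (v := x)).symm

theorem qdef_of_empty {α : Type} {s : Set (α → ℕ)}
    (h : @Set.Definable ℕ (∅ : Set ℕ) Language.empty Language.emptyStructure α s)
    (e : ℕ ≃ ℚ) : QDef {x : α → ℚ | (fun a => e.symm (x a)) ∈ s} := by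
  let _ : Language.order.Structure ℚ := orderStructure ℚ
  let _ : Language.empty.Structure ℕ := Language.emptyStructure
  let _ : Language.empty.Structure ℚ := Language.emptyStructure
  have h1 : Set.Definable (∅ : Set ℚ) Language.empty {x : α → ℚ | (fun a => e.symm (x a)) ∈ s} := by
    rw [Set.empty_definable_iff] at h ⊢
    obtain ⟨φ, rfl⟩ := h
    refine ⟨φ, ?_⟩
    ext x
    let e' : ℚ ≃[Language.empty] ℕ :=
      { toEquiv := e.symm, map_fun' := fun f => isEmptyElim f, map_rel' := fun r => isEmptyElim r }
    exact StrongHomClass.realize_formula e' φ (v := x)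
  exact h1.map_expansion (LHom.ofIsEmpty Language.empty Language.order)

theorem rationals_of_pureSet {L : FirstOrder.Language.{0, 0}} {M : Type} [L.Structure M]
    (h : InterpretableInPureSet L M) : InterpretableInRationals L M := by
  obtain ⟨d, D, π, hD, hsurj, hker, hrel, hfun⟩ := h
  let e : ℕ ≃ ℚ := (Denumerable.eqv ℚ).symm
  refine ⟨d, {x | (fun a => e.symm (x a)) ∈ D}, fun x => π (fun a => e.symm (x a)),
    qdef_of_empty hD e, ?_, qdef_of_empty hker e, fun n R => qdef_of_empty (hrel n R) e,
    fun n f => qdef_of_empty (hfun n f) e⟩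
  intro m
  obtain ⟨x, hx, rfl⟩ := hsurj m
  refine ⟨fun a => e (x a), ?_, ?_⟩
  · show (fun a => e.symm (e (x a))) ∈ D
    simpa using hx
  · show π (fun a => e.symm (e (x a))) = π x
    simp

theorem main (L : FirstOrder.Language.{0, 0}) (M : Type) [L.Structure M]
    (hM : InterpretableInRationals L M) : FinitelyManyReducts L M := by
  classical
  obtain ⟨d, D, π, hD, hsurj, hker, hrel, hfun⟩ := hM
  choose x hxD hx using hsurj
  have hcount : Countable M := by
    have : Function.Surjective π := fun m => ⟨x m, hx m⟩
    exact this.countable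
  -- the action
  have hπ : ∀ (σ : ℚ ≃o ℚ) (y : Fin d → ℚ), y ∈ D → π (fun j => σ (x (π y) j)) =
      π (fun j => σ (y j)) := by
    intro σ y hy
    have h1 : (fun p : Fin 2 × Fin d => if p.1 = 0 then x (π y) p.2 else y p.2) ∈
        {p : Fin 2 × Fin d → ℚ | (∀ i, (fun j => p (i, j)) ∈ D) ∧
          π (fun j => p (0, j)) = π (fun j => p (1, j))} := by
      refine ⟨fun i => ?_, ?_⟩
      · by_cases hi : i = 0
        · subst hi
          simpa using hxD (π y)
        · simpa [hi] using hy
      · simpa using hx (π y)
    have h2 := ((QDef.inv hker σ _).1 h1).2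
    simpa using h2
  have hDσ : ∀ (σ : ℚ ≃o ℚ) (y : Fin d → ℚ), y ∈ D → (fun j => σ (y j)) ∈ D := fun σ y hy =>
    (QDef.inv hD σ y).1 hy
  let act : MulAction (ℚ ≃o ℚ) M :=
    { smul := fun σ m => π (fun j => σ (x m j))
      one_smul := fun m => by
        show π (fun j => (1 : ℚ ≃o ℚ) (x m j)) = m
        exact hx m
      mul_smul := fun σ τ m => by
        show π (fun j => (σ * τ) (x m j)) = π (fun j => σ (x (π (fun j => τ (x m j))) j))
        rw [hπ σ (fun j => τ (x m j)) (hDσ τ _ (hxD m))]
        rfl }
  have hsmul : ∀ (σ : ℚ ≃o ℚ) (y : Fin d → ℚ), y ∈ D → σ • (π y) = π (fun j => σ (y j)) := hπ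
  -- finite supports
  have hsupp : ∀ m : M, ∃ F : Finset ℚ, IsSupp F m := by
    intro m
    refine ⟨Finset.univ.image (x m), fun σ hσ => ?_⟩
    show π (fun j => σ (x m j)) = m
    have : (fun j => σ (x m j)) = x m := by
      funext j
      exact hσ _ (Finset.mem_image_of_mem _ (Finset.mem_univ j))
    rw [this, hx]
  -- finitely many orbits on tuples
  have horb : ∀ n : ℕ, ∃ S : Finset (Fin n → M), ∀ v : Fin n → M, ∃ s ∈ S,
      ∃ σ : ℚ ≃o ℚ, ∀ i, σ • (s i) = v i := by
    intro n
    refine ⟨(Fintype.piFinset (fun _ : Fin n => Fintype.piFinset (fun _ : Fin d =>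
      std (n * d)))).image (fun y i => π (y i)), fun v => ?_⟩
    obtain ⟨σ, hσ⟩ := exists_into_std ((Finset.univ : Finset (Fin n × Fin d)).image
      (fun p => x (v p.1) p.2)) (n * d) (by
        refine Finset.card_image_le.trans ?_
        rw [Finset.card_univ, Fintype.card_prod, Fintype.card_fin, Fintype.card_fin])
    refine ⟨fun i => π (fun j => σ (x (v i) j)), Finset.mem_image.2 ⟨fun i j => σ (x (v i) j),
      Fintype.mem_piFinset.2 (fun i => Fintype.mem_piFinset.2 (fun j =>
        hσ _ (Finset.mem_image.2 ⟨(i, j), Finset.mem_univ _, rfl⟩))), rfl⟩, σ⁻¹, fun i => ?_⟩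
    show σ⁻¹ • (σ • (v i)) = v i
    exact inv_smul_smul σ (v i)
  -- supports
  obtain ⟨S⟩ : Nonempty (QAct M) := by
    refine exists_QAct hsupp ?_
    obtain ⟨T, hT⟩ := horb 1
    refine ⟨T.image (fun v => v 0), fun m => ?_⟩
    obtain ⟨s, hs, σ, hσ⟩ := hT (fun _ => m)
    exact ⟨s 0, Finset.mem_image_of_mem _ hs, σ, hσ 0⟩
  -- the group
  let A : Subgroup (Equiv.Perm M) := (MulAction.toPermHom (ℚ ≃o ℚ) M).range
  have hAmem : ∀ σ : ℚ ≃o ℚ, MulAction.toPerm σ ∈ A := fun σ => ⟨σ, rfl⟩
  refine finite_reducts L M A ?_ ?_ (finite_groups S A hAmem)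
  · rintro _ ⟨σ, rfl⟩
    refine ⟨{ toEquiv := MulAction.toPerm σ, map_fun' := ?_, map_rel' := ?_ }, fun m => rfl⟩
    · intro n f v
      show σ • (Structure.funMap f v) = Structure.funMap f (fun i => σ • v i)
      have h1 : (fun p : Fin (n + 1) × Fin d =>
          x ((Fin.snoc v (Structure.funMap f v) : Fin (n + 1) → M) p.1) p.2) ∈
          {p : Fin (n + 1) × Fin d → ℚ |
            (∀ i, (fun j => p (i, j)) ∈ D) ∧
              Structure.funMap f (fun i : Fin n => π (fun j => p (i.castSucc, j))) =
                π (fun j => p (Fin.last n, j))} := by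
        refine ⟨fun i => hxD ((Fin.snoc v (Structure.funMap f v) : Fin (n + 1) → M) i), ?_⟩
        simp only [Fin.snoc_castSucc, Fin.snoc_last]
        have e : ∀ m : M, π (fun j => x m j) = m := hx
        simp only [e]
      have h2 := ((QDef.inv (hfun n f) σ _).1 h1).2
      simp only [Fin.snoc_castSucc, Fin.snoc_last] at h2
      exact h2.symm
    · intro n R v
      show Structure.RelMap R (fun i => σ • v i) ↔ Structure.RelMap R v
      have h1 := QDef.inv (hrel n R) σ (fun p : Fin n × Fin d => x (v p.1) p.2)
      have e : ∀ m : M, π (fun j => x m j) = m := hx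
      constructor
      · intro h
        have h2 := (h1.2 ⟨fun i => hDσ σ _ (hxD (v i)), h⟩).2
        simp only [e] at h2
        exact h2
      · intro h
        have h2 := (h1.1 ⟨fun i => hxD (v i), by simp only [e]; exact h⟩).2
        exact h2
  · intro n
    obtain ⟨T, hT⟩ := horb n
    refine ⟨T, fun v => ?_⟩
    obtain ⟨s, hs, σ, hσ⟩ := hT v
    exact ⟨s, hs, MulAction.toPerm σ, hAmem σ, hσ⟩

/-- **Structures interpretable in the pure set, or in the rational order, have only finitely many
reducts up to interdefinability.** -/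
theorem result (L : FirstOrder.Language.{0, 0}) (M : Type) [L.Structure M]
    (hM : InterpretableInPureSet L M ∨ InterpretableInRationals L M) :
    FinitelyManyReducts L M :=
  main L M (hM.elim rationals_of_pureSet id)

end Pool.Agent.Results.MP_a81937_lc.PureSet
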